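import Pool.Agent.Helper79.GT.St1

/-!
# Project GT (MP_c2d095_lc), module GRS: the graph after one round, situational superko
-/

set_option autoImplicit false

namespace Pool.Agent.Helper78.GT

open Pool.Agent.Helper79.GT Pool.Agent.Helper79.GS Pool.Agent.Helper19.SK

private theorem bne_self (c : Bool) : c ≠ !c := by cases c <;> decide

theorem hGRS (hLVL : StLVL) (hXLS : StXLS) : Pool.Agent.Helper79.GT.StGRS := by
  intro P A hSc EX H c u v w hu huH huv hvH hwH hEw hwv k hk
  obtain ⟨-, -, -, huv', hsuv, hpred, hlev, hdist⟩ := hLVL P A hSc c u v huv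
  have hsw : A.s w = A.s u := hpred w hwv
  have hmem : ∀ z, (c, z) ∈ insert (c, w) (insert (!c, v) H) ↔ (z = w ∨ (c, z) ∈ H) := by
    intro z
    constructor
    · intro h
      rcases h with h | h | h
      · exact Or.inl (Prod.ext_iff.1 h).2
      · exact absurd (Prod.ext_iff.1 h).1 (bne_self c)
      · exact Or.inr h
    · rintro (h | h)
      · exact Or.inl (by rw [h])
      · exact Or.inr (Or.inr h)
  have hmem' : ∀ z, (!c, z) ∈ insert (c, w) (insert (!c, v) H) ↔ (z = v ∨ (!c, z) ∈ H) := by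
    intro z
    constructor
    · intro h
      rcases h with h | h | h
      · exact absurd (Prod.ext_iff.1 h).1.symm (bne_self c)
      · exact Or.inl (Prod.ext_iff.1 h).2
      · exact Or.inr h
    · rintro (h | h)
      · exact Or.inr (Or.inl (by rw [h]))
      · exact Or.inr (Or.inr h)
  have hk' : ∀ y x, A.s y = A.s u → rv A c y x → ¬ ahead A c x →
      (XkS A EX (insert (c, w) (insert (!c, v) H)) c k x ↔ XkS A EX H c k x) := by
    intro y x hy hyx hax
    obtain ⟨h1, -, -, -, h5, -, -, h8⟩ := hLVL P A hSc c y x hyx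
    have hsx : A.s x = A.s v := by
      rcases h8 with ⟨hc, h8⟩ | ⟨hc, h8⟩ <;> rcases hdist with ⟨hc', h9⟩ | ⟨hc', h9⟩
      · rw [h8, h9, hy]
      · rw [hc] at hc'; cases hc'
      · rw [hc] at hc'; cases hc'
      · rw [h8, h9, hy]
    obtain ⟨hay, hmy⟩ := hlev y hu hy
    have hm : mg A c x / 4 + 1 = k := by rw [h1 hay hax, hmy, hk]
    have hX : ∀ V : Set (Bool × P), (XkS A EX V c k x ↔ XINS A EX V c x) := by
      intro V; unfold XINS; rw [hm]
    rw [hX, hX]
    refine hXLS P A hSc EX _ _ c x hax (fun z _ hz => ?_) (fun z hz => ?_)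
    · rw [hmem z]
      have hzw : z ≠ w := by
        rintro rfl
        rcases hdist with ⟨hc, h9⟩ | ⟨hc, h9⟩
        · rw [if_pos hc] at hz
          omega
        · rw [if_neg (by rw [hc]; exact Bool.false_ne_true)] at hz
          omega
      exact ⟨fun h => h.resolve_left hzw, Or.inr⟩
    · rw [hmem' z]
      have hzv : z ≠ v := by
        rintro rfl
        rcases hdist with ⟨hc, h9⟩ | ⟨hc, h9⟩
        · rw [if_pos hc] at hz
          omega
        · rw [if_neg (by rw [hc]; exact Bool.false_ne_true)] at hz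
          omega
      exact ⟨fun h => h.resolve_left hzv, Or.inr⟩
  funext y x
  apply propext
  constructor
  · rintro ⟨h1, h2, h3, h4, h5, h6⟩
    have hy : A.s y = A.s u := by rw [h2, hsw]
    have hxv : x ≠ v := fun h => h4 ((hmem' x).2 (Or.inl h))
    have hxH : (!c, x) ∉ H := fun h => h4 ((hmem' x).2 (Or.inr h))
    have hyH : (c, y) ∉ H ∧ ¬ EX c y := by
      rcases h1 with h1 | ⟨h1, h1'⟩
      · rw [h1]; exact ⟨hwH, hEw⟩
      · exact ⟨fun h => h1 ((hmem y).2 (Or.inr h)), h1'⟩
    exact ⟨fun h => hyH.1 (h ▸ huH), hxv, Or.inr hyH, hy, h3, hxH, h5,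
      fun ha => (hk' y x hy h3 ha).1 (h6 ha)⟩
  · rintro ⟨h0, hxv, h1, hy, h3, hxH, h5, h6⟩
    have hyH : (c, y) ∉ H ∧ ¬ EX c y := by
      rcases h1 with h1 | h1
      · exact absurd h1 h0
      · exact h1
    refine ⟨?_, by rw [hy, hsw], h3, ?_, h5, fun ha => (hk' y x hy h3 ha).2 (h6 ha)⟩
    · by_cases hyw : y = w
      · exact Or.inl hyw
      · refine Or.inr ⟨fun h => ?_, hyH.2⟩
        rcases (hmem y).1 h with h | h
        · exact hyw h
        · exact hyH.1 h
    · intro h
      rcases (hmem' x).1 h with h | h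
      · exact hxv h
      · exact hxH h

end Pool.Agent.Helper78.GT
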